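import Pool.Agent.Lib.MP_e46711_an.H29.Forms

/-!
# MP_e46711_an, module B3b (helper29): the Euler-Lagrange equation of the maximisers
-/

open Set Filter Topology MeasureTheory
open scoped ContDiff

namespace Pool.Agent.Lib.MP_e46711_an.H29

lemma abs_rpow_mul_self {p : ℝ} (_hp : 0 < p) (x : ℝ) : |x| ^ (p + 1 - 2) * x = sp p x := by
  unfold sp
  rcases lt_trichotomy x 0 with hx | hx | hx
  · have h1 : 0 < |x| := abs_pos.2 hx.ne
    rw [sign_neg hx, show p + 1 - 2 = p - 1 by ring, Real.rpow_sub_one h1.ne']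
    have h2 : |x| = -x := abs_of_neg hx
    rw [h2]
    simp only [SignType.coe_neg, SignType.coe_one]
    field_simp
    rw [mul_comm x, mul_div_assoc, div_self hx.ne, mul_one]
  · subst hx
    simp
  · have h1 : 0 < |x| := abs_pos.2 hx.ne'
    rw [sign_pos hx, show p + 1 - 2 = p - 1 by ring, Real.rpow_sub_one h1.ne']
    have h2 : |x| = x := abs_of_pos hx
    rw [h2]
    simp only [SignType.coe_one]
    field_simp

lemma abs_rpow_le {p : ℝ} (hp0 : 0 < p) (hp1 : p < 1) (x : ℝ) : |x| ^ p ≤ 1 + |x| := by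
  rcases le_or_gt |x| 1 with h | h
  · have := Real.rpow_le_one (abs_nonneg x) h hp0.le
    linarith [abs_nonneg x]
  · have := Real.rpow_le_rpow_of_exponent_le h.le hp1.le
    rw [Real.rpow_one] at this
    linarith

lemma abs_sp_le {p : ℝ} (hp0 : 0 < p) (hp1 : p < 1) (x : ℝ) : |sp p x| ≤ 1 + |x| := by
  unfold sp
  rw [abs_mul]
  have h1 : |((SignType.sign x : SignType) : ℝ)| ≤ 1 := by
    rcases lt_trichotomy x 0 with hx | hx | hx
    · rw [sign_neg hx]; simp
    · subst hx; simp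
    · rw [sign_pos hx]; simp
  have h2 : |(|x| ^ p)| = |x| ^ p := abs_of_nonneg (Real.rpow_nonneg (abs_nonneg x) _)
  rw [h2]
  calc |((SignType.sign x : SignType) : ℝ)| * |x| ^ p ≤ 1 * |x| ^ p :=
        mul_le_mul_of_nonneg_right h1 (Real.rpow_nonneg (abs_nonneg x) _)
    _ = |x| ^ p := one_mul _
    _ ≤ _ := abs_rpow_le hp0 hp1 x

lemma abs_rpow_succ_le {p : ℝ} (hp0 : 0 < p) (hp1 : p < 1) (x : ℝ) :
    |x| ^ (p + 1) ≤ 1 + x ^ 2 := by
  rcases le_or_gt |x| 1 with h | h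
  · have := Real.rpow_le_one (abs_nonneg x) h (by linarith : (0:ℝ) ≤ p + 1)
    nlinarith [sq_nonneg x]
  · have := Real.rpow_le_rpow_of_exponent_le h.le (by linarith : p + 1 ≤ (2:ℝ))
    rw [Real.rpow_two, sq_abs] at this
    linarith

lemma sp_mul {p c : ℝ} (hc : 0 < c) (x : ℝ) : sp p (c * x) = c ^ p * sp p x := by
  unfold sp
  rw [abs_mul, abs_of_pos hc, Real.mul_rpow hc.le (abs_nonneg x), sign_mul, sign_pos hc, one_mul]
  ring

lemma meas_sp {p : ℝ} (hp : 0 < p) : Measurable (sp p) := by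
  have : sp p = fun x => |x| ^ (p + 1 - 2) * x := by
    ext x; rw [abs_rpow_mul_self hp]
  rw [this]
  fun_prop

section

variable {p ℓ δ : ℝ} {h : ℝ → ℝ} {U φ : ℝ × ℝ → ℝ}

lemma aesm_sp (hp0 : 0 < p) (hU : AEStronglyMeasurable U (muT ℓ)) :
    AEStronglyMeasurable (fun z => sp p (U z)) (muT ℓ) :=
  ((meas_sp hp0).comp_aemeasurable hU.aemeasurable).aestronglyMeasurable

lemma int_sq (hU : MemLp U 2 (muT ℓ)) : Integrable (fun z => U z ^ 2) (muT ℓ) := hU.integrable_sq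

lemma int_abs_rpow (hp0 : 0 < p) (hp1 : p < 1) (hU : MemLp U 2 (muT ℓ)) :
    Integrable (fun z => |U z| ^ (p + 1)) (muT ℓ) := by
  have hc : Continuous fun x : ℝ => |x| ^ (p + 1) :=
    continuous_abs.rpow_const fun x => Or.inr (by linarith)
  refine Integrable.mono' ((integrable_const (1:ℝ)).add (int_sq hU))
    (hc.comp_aestronglyMeasurable hU.aestronglyMeasurable) (Eventually.of_forall fun z => ?_)
  rw [Real.norm_of_nonneg (Real.rpow_nonneg (abs_nonneg _) _)]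
  exact abs_rpow_succ_le hp0 hp1 _

lemma int_sp_mul (hp0 : 0 < p) (hp1 : p < 1) (hU : MemLp U 2 (muT ℓ)) (hφ : Continuous φ) :
    Integrable (fun z => sp p (U z) * φ z) (muT ℓ) := by
  refine int_mul_cont ?_ hφ
  refine Integrable.mono' ((integrable_const (1:ℝ)).add (hU.integrable (by norm_num)).norm)
    (aesm_sp hp0 hU.aestronglyMeasurable) (Eventually.of_forall fun z => ?_)
  exact abs_sp_le hp0 hp1 _

/-- the derivative of the `L^{p+1}` norm -/
lemma hasDerivAt_Z (hp0 : 0 < p) (hp1 : p < 1) (hh : Continuous h)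
    (hU : MemLp U 2 (muT ℓ)) (hφ : Continuous φ) :
    HasDerivAt (fun t : ℝ => Inu ℓ h δ (fun z => |U z + t * φ z| ^ (p + 1)))
      ((p + 1) * Inu ℓ h δ (fun z => sp p (U z) * φ z)) 0 := by
  have hwt := cont_wt (ℓ := ℓ) (δ := δ) hh
  obtain ⟨Cφ, hCφ0, hCφ⟩ := bdd_of_cont ℓ hφ
  obtain ⟨Cw, hCw0, hCw⟩ := bdd_of_cont ℓ hwt
  have hφ2 : MemLp φ 2 (muT ℓ) := memLp_of_cont ℓ hφ 2
  have hX : ∀ t : ℝ, MemLp (fun z => U z + t * φ z) 2 (muT ℓ) := fun t => hU.add (hφ2.const_mul t)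
  have key := hasDerivAt_integral_of_dominated_loc_of_deriv_le (μ := muT ℓ) (x₀ := (0:ℝ))
    (s := Metric.ball (0:ℝ) 1)
    (F := fun t z => |U z + t * φ z| ^ (p + 1) * wt ℓ h δ z)
    (F' := fun t z => ((p + 1) * sp p (U z + t * φ z) * φ z) * wt ℓ h δ z)
    (bound := fun z => (p + 1) * (1 + (|U z| + Cφ)) * Cφ * Cw)
    (Metric.ball_mem_nhds _ one_pos)
    (Eventually.of_forall fun t => (int_mul_cont (int_abs_rpow hp0 hp1 (hX t)) hwt).1)
    (int_mul_cont (int_abs_rpow hp0 hp1 (hX 0)) hwt) ?_ ?_ ?_ ?_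
  · have h2 := key.2
    refine HasDerivAt.congr_deriv (f' := ∫ z, ((p + 1) * sp p (U z + 0 * φ z) * φ z)
      * wt ℓ h δ z ∂muT ℓ) h2 ?_
    rw [Inu_eq, ← integral_const_mul]
    congr 1
    ext z
    rw [zero_mul, add_zero]
    ring
  · exact (((aesm_sp hp0 (hX 0).1).const_mul _).mul hφ.aestronglyMeasurable).mul
      hwt.aestronglyMeasurable
  · filter_upwards [hCφ, hCw] with z h1 h2 t ht
    rw [Metric.mem_ball, dist_zero_right, Real.norm_eq_abs] at ht
    rw [norm_mul, norm_mul, norm_mul, Real.norm_of_nonneg (by linarith : (0:ℝ) ≤ p + 1)]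
    have h3 : ‖sp p (U z + t * φ z)‖ ≤ 1 + (|U z| + Cφ) := by
      refine (abs_sp_le hp0 hp1 _).trans ?_
      have h4 : |U z + t * φ z| ≤ |U z| + |t| * |φ z| := by
        rw [← abs_mul]; exact abs_add_le _ _
      have h5 : |t| * |φ z| ≤ 1 * Cφ := mul_le_mul ht.le h1 (abs_nonneg _) zero_le_one
      linarith
    have h6 : 0 ≤ 1 + (|U z| + Cφ) := by positivity
    have h7 : (0:ℝ) ≤ p + 1 := by linarith
    gcongr
  · have h1 : Integrable (fun z => |U z|) (muT ℓ) := (hU.integrable (by norm_num)).norm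
    have h2 : Integrable (fun z => 1 + (|U z| + Cφ)) (muT ℓ) :=
      (integrable_const (1:ℝ)).add (h1.add (integrable_const Cφ))
    exact ((h2.const_mul _).mul_const _).mul_const _
  · refine Eventually.of_forall fun z t ht => ?_
    have h1 : HasDerivAt (fun t : ℝ => U z + t * φ z) (φ z) t := by
      simpa using ((hasDerivAt_id t).mul_const (φ z)).const_add (U z)
    have h2 := (hasDerivAt_abs_rpow (U z + t * φ z) (by linarith : 1 < p + 1)).comp t h1
    have h3 : (p + 1) * |U z + t * φ z| ^ (p + 1 - 2) * (U z + t * φ z)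
        = (p + 1) * sp p (U z + t * φ z) := by
      rw [mul_assoc, abs_rpow_mul_self hp0]
    rw [h3] at h2
    exact h2.mul_const _

/-- expansion of the quadratic part -/
lemma Inu_sq_expand (hh : Continuous h) (hU : MemLp U 2 (muT ℓ)) (hφ : MemLp φ 2 (muT ℓ))
    (t : ℝ) :
    Inu ℓ h δ (fun z => (U z + t * φ z) ^ 2) = Inu ℓ h δ (fun z => U z ^ 2)
      + 2 * t * Inu ℓ h δ (fun z => U z * φ z) + t ^ 2 * Inu ℓ h δ (fun z => φ z ^ 2) := by
  have h12 : Integrable (fun z => U z ^ 2 + 2 * t * (U z * φ z)) (muT ℓ) :=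
    (int_sq hU).add ((int_mul hU hφ).const_mul _)
  rw [← Inu_smul, ← Inu_smul, ← Inu_add hh (int_sq hU) ((int_mul hU hφ).const_mul _),
    ← Inu_add hh h12 ((int_sq hφ).const_mul _)]
  congr 1
  ext z
  ring

lemma Inu_abs_smul {c : ℝ} (hc : 0 < c) (U : ℝ × ℝ → ℝ) :
    Inu ℓ h δ (fun z => |c * U z| ^ (p + 1)) = c ^ (p + 1) * Inu ℓ h δ (fun z => |U z| ^ (p + 1)) := by
  rw [← Inu_smul]
  congr 1
  ext z
  rw [abs_mul, abs_of_pos hc, Real.mul_rpow hc.le (abs_nonneg _)]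

end

section

variable {p l0 l1 l3 : ℝ} (R : Ring1D p l0 l1 l3)

lemma int_w {ℓ K : ℝ} {w : ℝ → ℝ} (hw : Measurable w) (h0 : ∀ s, 0 ≤ w s) (hK : ∀ s, w s ≤ K)
    {U : ℝ × ℝ → ℝ} (hU : Integrable U (muT ℓ)) : Integrable (fun z => w z.1 * U z) (muT ℓ) := by
  have hK0 : 0 ≤ K := (h0 0).trans (hK 0)
  refine memLp_one_iff_integrable.1 (MemLp.of_le_mul (c := K) (memLp_one_iff_integrable.2 hU)
    ((hw.comp measurable_fst).aestronglyMeasurable.mul hU.1) (Eventually.of_forall fun z => ?_))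
  rw [norm_mul, Real.norm_of_nonneg (h0 _)]
  exact mul_le_mul_of_nonneg_right (hK _) (norm_nonneg _)

lemma a2_add {U φ : ℝ × ℝ → ℝ} (hU : Integrable U (muT R.ℓ)) (hφ : Integrable φ (muT R.ℓ))
    (t : ℝ) : R.a2 (fun z => U z + t * φ z) = R.a2 U + t * R.a2 φ := by
  obtain ⟨K, hK⟩ := R.wab
  have h1 := int_w R.wam R.wa0 (fun s => (hK s).1) hU
  have h2 := int_w R.wam R.wa0 (fun s => (hK s).1) hφ
  unfold Ring1D.a2
  rw [← mul_div_assoc, ← integral_const_mul, ← add_div, ← integral_add h1 (h2.const_mul _)]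
  congr 2
  ext z
  ring

lemma b2_add {U φ : ℝ × ℝ → ℝ} (hU : Integrable U (muT R.ℓ)) (hφ : Integrable φ (muT R.ℓ))
    (t : ℝ) : R.b2 (fun z => U z + t * φ z) = R.b2 U + t * R.b2 φ := by
  obtain ⟨K, hK⟩ := R.wab
  have h1 := int_w R.wbm R.wb0 (fun s => (hK s).2) hU
  have h2 := int_w R.wbm R.wb0 (fun s => (hK s).2) hφ
  unfold Ring1D.b2
  rw [← mul_div_assoc, ← integral_const_mul, ← add_div, ← integral_add h1 (h2.const_mul _)]
  congr 2
  ext z
  ring

lemma a2_smul (c : ℝ) (U : ℝ × ℝ → ℝ) : R.a2 (fun z => c * U z) = c * R.a2 U := by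
  unfold Ring1D.a2
  rw [← mul_div_assoc, ← integral_const_mul]
  congr 2
  ext z
  ring

lemma b2_smul (c : ℝ) (U : ℝ × ℝ → ℝ) : R.b2 (fun z => c * U z) = c * R.b2 U := by
  unfold Ring1D.b2
  rw [← mul_div_assoc, ← integral_const_mul]
  congr 2
  ext z
  ring

lemma BF_smul (δ c : ℝ) (U V W : ℝ × ℝ → ℝ) :
    R.BF δ (fun z => c * U z) (fun z => c * V z) (fun z => c * W z) = c ^ 2 * R.BF δ U V W := by
  unfold Ring1D.BF
  rw [Bil_smul, Bil_symm, Bil_smul]
  have : (fun z => (c * U z) ^ 2) = fun z => c ^ 2 * U z ^ 2 := by ext z; ring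
  rw [this, Inu_smul]
  ring

/-- scaling of admissible functions -/
lemma adm_smul (hB : H1TBasic) {δ c : ℝ} (hc : 0 < c) {U V W : ℝ × ℝ → ℝ} (hH : H1T R.ℓ U V W)
    (hN : c ^ (p + 1) * Inu R.ℓ R.h δ (fun z => |U z| ^ (p + 1)) ≤ 1) (ha : 0 ≤ R.a2 U)
    (h1 : R.t1 * R.a2 U ≤ R.b2 U) (h2 : R.b2 U ≤ R.t2 * R.a2 U) :
    R.Adm δ (fun z => c * U z) (fun z => c * V z) (fun z => c * W z) := by
  refine ⟨(hB R.ℓ R.hℓ).2.2.1 c U V W hH, ?_, ?_, ?_, ?_⟩
  · rw [Inu_abs_smul hc]; exact hN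
  · rw [a2_smul]; positivity
  · rw [a2_smul, b2_smul]
    nlinarith [mul_le_mul_of_nonneg_left h1 hc.le]
  · rw [a2_smul, b2_smul]
    nlinarith [mul_le_mul_of_nonneg_left h2 hc.le]

end

/-- Module B3b. -/
theorem b3b (hB : H1TBasic) : EulerLagrange := by
  intro p l0 l1 l3 R δ hδ U V W hA hmax hθ ha hw1 hw2
  have hp0 := R.hp0
  have hp1 := R.hp1
  have hδ0 : δ ≠ 0 := hδ.1.ne'
  have hh : Continuous R.h := R.smooth.continuous
  obtain ⟨hH, hN1, ha0, hA1, hA2⟩ := hA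
  set θ := R.BF δ U V W with hθdef
  set N := Inu R.ℓ R.h δ (fun z => |U z| ^ (p + 1)) with hNdef
  have hN0 : 0 ≤ N := Inu_nonneg R.pos fun z => Real.rpow_nonneg (abs_nonneg _) _
  -- Step 1: the constraint is saturated
  have hN : N = 1 := by
    by_contra hne
    have hlt : N < 1 := lt_of_le_of_ne hN1 hne
    set n := max N (1 / 2) with hn
    have hn0 : 0 < n := lt_of_lt_of_le (by norm_num) (le_max_right _ _)
    have hn1 : n < 1 := max_lt hlt (by norm_num)
    set t := (1 / n) ^ (1 / (p + 1)) with ht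
    have hinv : 1 < 1 / n := by rw [lt_div_iff₀ hn0]; linarith
    have ht1 : 1 < t := Real.one_lt_rpow hinv (by positivity)
    have ht0 : 0 < t := by linarith
    have htp : t ^ (p + 1) = 1 / n := by
      rw [ht, ← Real.rpow_mul (by positivity), one_div_mul_cancel (by positivity), Real.rpow_one]
    have hadm := adm_smul R hB (δ := δ) ht0 hH (by
      rw [htp, ← hNdef, div_mul_eq_mul_div, one_mul, div_le_one hn0]
      exact le_max_left _ _) ha0 hA1 hA2
    have := hmax _ _ _ hadm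
    rw [BF_smul] at this
    have h3 : 1 < t ^ 2 := by nlinarith
    nlinarith
  refine ⟨hN, ?_⟩
  -- Step 2: the Euler-Lagrange equation
  have hEL : ∀ φ, C1per R.ℓ φ → l0 * Inu R.ℓ R.h δ (fun z => U z * φ z)
      - Bil R.ℓ R.h δ V W (dS φ) (dY φ) = θ * Inu R.ℓ R.h δ (fun z => sp p (U z) * φ z) := by
    intro φ hφ
    have hφH := (hB R.ℓ R.hℓ).1 φ hφ
    have hφc : Continuous φ := hφ.1.continuous
    have hX : ∀ t : ℝ, H1T R.ℓ (fun z => U z + t * φ z) (fun z => V z + t * dS φ z)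
        (fun z => W z + t * dY φ z) := fun t =>
      (hB R.ℓ R.hℓ).2.1 _ _ _ _ _ _ hH ((hB R.ℓ R.hℓ).2.2.1 t _ _ _ hφH)
    set Z : ℝ → ℝ := fun t => Inu R.ℓ R.h δ (fun z => |U z + t * φ z| ^ (p + 1)) with hZdef
    have hZ0 : Z 0 = 1 := by
      have hZN : Z 0 = N := by
        rw [hNdef]
        show Inu R.ℓ R.h δ (fun z => |U z + 0 * φ z| ^ (p + 1)) = _
        congr 1
        ext z
        rw [zero_mul, add_zero]
      rw [hZN, hN]
    have hZd := hasDerivAt_Z (ℓ := R.ℓ) (δ := δ) hp0 hp1 hh hH.mU hφc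
    have hZpos : ∀ᶠ t in 𝓝 (0:ℝ), 0 < Z t :=
      hZd.continuousAt.eventually (lt_mem_nhds (by
        show (0:ℝ) < Z 0
        rw [hZ0]; exact one_pos))
    set D := l0 * Inu R.ℓ R.h δ (fun z => U z * φ z) - Bil R.ℓ R.h δ V W (dS φ) (dY φ) with hD
    set E := l0 * Inu R.ℓ R.h δ (fun z => φ z ^ 2) - Bil R.ℓ R.h δ (dS φ) (dY φ) (dS φ) (dY φ)
      with hE
    have hBF : ∀ t : ℝ, R.BF δ (fun z => U z + t * φ z) (fun z => V z + t * dS φ z)
        (fun z => W z + t * dY φ z) = θ + 2 * t * D + t ^ 2 * E := by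
      intro t
      rw [hθdef]
      unfold Ring1D.BF
      rw [Inu_sq_expand hh hH.mU hφH.mU, Bil_expand R.smooth R.pos hδ0 hH.mV hH.mW hφH.mV hφH.mW,
        hD, hE]
      ring
    set f : ℝ → ℝ := fun t => θ * Z t ^ (2 / (p + 1)) - (θ + 2 * t * D + t ^ 2 * E) with hf
    have hf0 : f 0 = 0 := by
      rw [hf]
      simp only [hZ0, Real.one_rpow]
      ring
    have hUi : Integrable U (muT R.ℓ) := hH.mU.integrable (by norm_num)
    have hφi : Integrable φ (muT R.ℓ) := hφH.mU.integrable (by norm_num)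
    have hfmin : IsLocalMin f 0 := by
      have e1 : ∀ᶠ t in 𝓝 (0:ℝ), 0 < R.a2 U + t * R.a2 φ := by
        have hc : Continuous fun t : ℝ => R.a2 U + t * R.a2 φ := by fun_prop
        refine hc.continuousAt.eventually (lt_mem_nhds ?_)
        simpa using ha
      have e2 : ∀ᶠ t in 𝓝 (0:ℝ), 0 < (R.b2 U + t * R.b2 φ) - R.t1 * (R.a2 U + t * R.a2 φ) := by
        have hc : Continuous fun t : ℝ => (R.b2 U + t * R.b2 φ) - R.t1 * (R.a2 U + t * R.a2 φ) := by
          fun_prop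
        refine hc.continuousAt.eventually (lt_mem_nhds ?_)
        simpa using hw1
      have e3 : ∀ᶠ t in 𝓝 (0:ℝ), 0 < R.t2 * (R.a2 U + t * R.a2 φ) - (R.b2 U + t * R.b2 φ) := by
        have hc : Continuous fun t : ℝ => R.t2 * (R.a2 U + t * R.a2 φ) - (R.b2 U + t * R.b2 φ) := by
          fun_prop
        refine hc.continuousAt.eventually (lt_mem_nhds ?_)
        simpa using hw2
      filter_upwards [hZpos, e1, e2, e3] with t hZt h1 h2 h3
      rw [hf0]
      set s := (Z t) ^ (-(1 / (p + 1))) with hs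
      have hs0 : 0 < s := Real.rpow_pos_of_pos hZt _
      have hsp : s ^ (p + 1) * Z t = 1 := by
        rw [hs, ← Real.rpow_mul hZt.le, show -(1 / (p + 1)) * (p + 1) = -1 by field_simp,
          Real.rpow_neg_one, inv_mul_cancel₀ hZt.ne']
      have hs2 : s ^ 2 * Z t ^ (2 / (p + 1)) = 1 := by
        rw [hs, ← Real.rpow_natCast, ← Real.rpow_mul hZt.le, ← Real.rpow_add hZt]
        have : -(1 / (p + 1)) * ((2 : ℕ) : ℝ) + 2 / (p + 1) = 0 := by
          push_cast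
          ring
        rw [this, Real.rpow_zero]
      have hadm := adm_smul R hB (δ := δ) hs0 (hX t) (by
        show s ^ (p + 1) * Z t ≤ 1
        rw [hsp]) (by rw [a2_add R hUi hφi]; exact h1.le)
        (by rw [a2_add R hUi hφi, b2_add R hUi hφi]; linarith)
        (by rw [a2_add R hUi hφi, b2_add R hUi hφi]; linarith)
      have h4 := hmax _ _ _ hadm
      rw [BF_smul, hBF] at h4
      have hZ2 : 0 < Z t ^ (2 / (p + 1)) := Real.rpow_pos_of_pos hZt _
      have h5 : s ^ 2 * (θ + 2 * t * D + t ^ 2 * E) * Z t ^ (2 / (p + 1))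
          ≤ θ * Z t ^ (2 / (p + 1)) := mul_le_mul_of_nonneg_right h4 hZ2.le
      have h6 : s ^ 2 * (θ + 2 * t * D + t ^ 2 * E) * Z t ^ (2 / (p + 1))
          = θ + 2 * t * D + t ^ 2 * E := by
        calc s ^ 2 * (θ + 2 * t * D + t ^ 2 * E) * Z t ^ (2 / (p + 1))
            = (s ^ 2 * Z t ^ (2 / (p + 1))) * (θ + 2 * t * D + t ^ 2 * E) := by ring
          _ = _ := by rw [hs2, one_mul]
      rw [h6] at h5
      show 0 ≤ θ * Z t ^ (2 / (p + 1)) - (θ + 2 * t * D + t ^ 2 * E)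
      linarith
    have hfd : HasDerivAt f (θ * (((p + 1) * Inu R.ℓ R.h δ (fun z => sp p (U z) * φ z))
        * (2 / (p + 1)) * Z 0 ^ (2 / (p + 1) - 1)) - 2 * D) 0 := by
      have h1 := (hZd.rpow_const (p := 2 / (p + 1)) (Or.inl (by
        show Z 0 ≠ 0
        rw [hZ0]; exact one_ne_zero))).const_mul θ
      have h2 : HasDerivAt (fun t : ℝ => θ + 2 * t * D + t ^ 2 * E) (2 * D) 0 := by
        have h3 : HasDerivAt (fun t : ℝ => θ + 2 * t * D + t ^ 2 * E)
            (0 + 2 * 1 * D + (2 * (0:ℝ) ^ (2 - 1) * 1) * E) 0 := by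
          exact (((hasDerivAt_const (0:ℝ) θ).add
            (((hasDerivAt_id (0:ℝ)).const_mul 2).mul_const D)).add
            (((hasDerivAt_id (0:ℝ)).pow 2).mul_const E))
        convert h3 using 1
        norm_num
      exact h1.sub h2
    have hzero := hfmin.hasDerivAt_eq_zero hfd
    rw [hZ0, Real.one_rpow] at hzero
    have h7 : (p + 1) * (2 / (p + 1)) = 2 := by field_simp
    have h8 : θ * ((p + 1) * Inu R.ℓ R.h δ (fun z => sp p (U z) * φ z) * (2 / (p + 1)) * 1)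
        = 2 * (θ * Inu R.ℓ R.h δ (fun z => sp p (U z) * φ z)) := by
      calc _ = ((p + 1) * (2 / (p + 1))) * (θ * Inu R.ℓ R.h δ (fun z => sp p (U z) * φ z)) := by
            ring
        _ = _ := by rw [h7]
    rw [h8] at hzero
    linarith
  -- Step 3: rescaling
  set c := (l0 / θ) ^ (1 / (1 - p)) with hc
  have hl0 := R.hl0
  have hq : 0 < l0 / θ := div_pos hl0 hθ
  have hc0 : 0 < c := Real.rpow_pos_of_pos hq _
  have hcp : c * θ = l0 * c ^ p := by
    have h1 : c ^ (1 - p) = l0 / θ := by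
      rw [hc, ← Real.rpow_mul hq.le, one_div_mul_cancel (by linarith : (1 - p) ≠ 0), Real.rpow_one]
    have h2 : c = c ^ (1 - p) * c ^ p := by
      rw [← Real.rpow_add hc0]
      simp
    calc c * θ = c ^ (1 - p) * c ^ p * θ := by rw [← h2]
      _ = l0 / θ * c ^ p * θ := by rw [h1]
      _ = _ := by field_simp
  refine ⟨(hB R.ℓ R.hℓ).2.2.1 c U V W hH, fun φ hφ => ?_⟩
  have hφc : Continuous φ := hφ.1.continuous
  have hφH := (hB R.ℓ R.hℓ).1 φ hφ
  have h1 : Integrable (fun z => U z * φ z) (muT R.ℓ) := int_mul hH.mU hφH.mU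
  have h2 : Integrable (fun z => sp p (U z) * φ z) (muT R.ℓ) := int_sp_mul hp0 hp1 hH.mU hφc
  have h3 : Inu R.ℓ R.h δ (fun z => gg p (c * U z) * φ z)
      = c * Inu R.ℓ R.h δ (fun z => U z * φ z)
        + -(c ^ p) * Inu R.ℓ R.h δ (fun z => sp p (U z) * φ z) := by
    rw [← Inu_smul, ← Inu_smul, ← Inu_add hh (h1.const_mul _) (h2.const_mul _)]
    congr 1
    ext z
    unfold gg
    rw [sp_mul hc0]
    ring
  rw [Bil_smul, h3]
  have h4 := hEL φ hφ
  have h5 : Bil R.ℓ R.h δ V W (dS φ) (dY φ) = l0 * Inu R.ℓ R.h δ (fun z => U z * φ z)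
      - θ * Inu R.ℓ R.h δ (fun z => sp p (U z) * φ z) := by linarith
  rw [h5]
  linear_combination (-Inu R.ℓ R.h δ (fun z => sp p (U z) * φ z)) * hcp

end Pool.Agent.Lib.MP_e46711_an.H29
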