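import Pool.Agent.Lib.MP_e46711_an.DefsB

/-!
# MP_e46711_an, helper29: elementary facts on `muT`, `Inu`, `Bil`
-/

open Set Filter Topology MeasureTheory
open scoped ContDiff

namespace Pool.Agent.Lib.MP_e46711_an.H29

instance finMuT (ℓ : ℝ) : IsFiniteMeasure (muT ℓ) := by
  unfold muT; infer_instance

lemma ae_mem (ℓ : ℝ) : ∀ᵐ z ∂muT ℓ, z ∈ Ioc 0 ℓ ×ˢ Ioo (-1:ℝ) 1 := by
  unfold muT
  rw [Measure.prod_restrict]
  exact ae_restrict_mem (measurableSet_Ioc.prod measurableSet_Ioo)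

/-- continuous functions are bounded almost everywhere -/
lemma bdd_of_cont (ℓ : ℝ) {g : ℝ × ℝ → ℝ} (hg : Continuous g) :
    ∃ C, 0 ≤ C ∧ ∀ᵐ z ∂muT ℓ, ‖g z‖ ≤ C := by
  have hK : IsCompact (Icc (0:ℝ) ℓ ×ˢ Icc (-1:ℝ) 1) := isCompact_Icc.prod isCompact_Icc
  obtain ⟨C, hC⟩ := hK.exists_bound_of_continuousOn hg.continuousOn
  refine ⟨max C 0, le_max_right _ _, ?_⟩
  filter_upwards [ae_mem ℓ] with z hz
  refine (hC z ?_).trans (le_max_left _ _)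
  exact ⟨Ioc_subset_Icc_self hz.1, Ioo_subset_Icc_self hz.2⟩

lemma memLp_of_cont (ℓ : ℝ) {g : ℝ × ℝ → ℝ} (hg : Continuous g) (q : ENNReal) :
    MemLp g q (muT ℓ) := by
  obtain ⟨C, -, hC⟩ := bdd_of_cont ℓ hg
  exact MemLp.of_bound hg.aestronglyMeasurable C hC

/-- a function in `L^2` times a continuous function is in `L^2` -/
lemma memLp_mul_cont {ℓ : ℝ} {f g : ℝ × ℝ → ℝ} (hf : MemLp f 2 (muT ℓ)) (hg : Continuous g) :
    MemLp (fun z => g z * f z) 2 (muT ℓ) := by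
  obtain ⟨C, hC0, hC⟩ := bdd_of_cont ℓ hg
  refine MemLp.of_le_mul (c := C) hf (hg.aestronglyMeasurable.mul hf.aestronglyMeasurable) ?_
  filter_upwards [hC] with z hz
  rw [norm_mul]
  exact mul_le_mul_of_nonneg_right hz (norm_nonneg _)

lemma int_mul_cont {ℓ : ℝ} {f g : ℝ × ℝ → ℝ} (hf : Integrable f (muT ℓ)) (hg : Continuous g) :
    Integrable (fun z => f z * g z) (muT ℓ) := by
  obtain ⟨C, hC0, hC⟩ := bdd_of_cont ℓ hg
  have := memLp_one_iff_integrable.2 hf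
  refine memLp_one_iff_integrable.1 (MemLp.of_le_mul (c := C) this
    (hf.aestronglyMeasurable.mul hg.aestronglyMeasurable) ?_)
  filter_upwards [hC] with z hz
  rw [norm_mul, mul_comm]
  exact mul_le_mul_of_nonneg_right hz (norm_nonneg _)

lemma int_mul {ℓ : ℝ} {f g : ℝ × ℝ → ℝ} (hf : MemLp f 2 (muT ℓ)) (hg : MemLp g 2 (muT ℓ)) :
    Integrable (fun z => f z * g z) (muT ℓ) :=
  hf.integrable_mul hg

section weights

variable {ℓ δ : ℝ} {h : ℝ → ℝ}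

lemma cont_om (hh : Continuous h) : Continuous (om ℓ h δ) := by
  unfold om
  fun_prop

/-- the weight of `Inu` -/
noncomputable def wt (ℓ : ℝ) (h : ℝ → ℝ) (δ : ℝ) (z : ℝ × ℝ) : ℝ := h z.1 * om ℓ h δ z / 2

lemma cont_wt (hh : Continuous h) : Continuous (wt ℓ h δ) := by
  have := cont_om (ℓ := ℓ) (δ := δ) hh
  unfold wt
  fun_prop

lemma wt_pos (hpos : ∀ s, 0 < h s) (z : ℝ × ℝ) : 0 < wt ℓ h δ z := by
  unfold wt om
  have := hpos z.1
  positivity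

lemma Inu_eq (f : ℝ × ℝ → ℝ) : Inu ℓ h δ f = ∫ z, f z * wt ℓ h δ z ∂muT ℓ := rfl

lemma Inu_add (hh : Continuous h) {f g : ℝ × ℝ → ℝ} (hf : Integrable f (muT ℓ))
    (hg : Integrable g (muT ℓ)) :
    Inu ℓ h δ (fun z => f z + g z) = Inu ℓ h δ f + Inu ℓ h δ g := by
  rw [Inu_eq, Inu_eq, Inu_eq, ← integral_add (int_mul_cont hf (cont_wt hh))
    (int_mul_cont hg (cont_wt hh))]
  congr 1
  ext z
  ring

lemma Inu_smul (c : ℝ) (f : ℝ × ℝ → ℝ) :
    Inu ℓ h δ (fun z => c * f z) = c * Inu ℓ h δ f := by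
  rw [Inu_eq, Inu_eq, ← integral_const_mul]
  congr 1
  ext z
  ring

lemma Inu_congr {f g : ℝ × ℝ → ℝ} (hfg : f =ᵐ[muT ℓ] g) : Inu ℓ h δ f = Inu ℓ h δ g := by
  rw [Inu_eq, Inu_eq]
  refine integral_congr_ae ?_
  filter_upwards [hfg] with z hz
  rw [hz]

lemma Inu_nonneg (hpos : ∀ s, 0 < h s) {f : ℝ × ℝ → ℝ} (hf : ∀ z, 0 ≤ f z) :
    0 ≤ Inu ℓ h δ f := by
  rw [Inu_eq]
  exact integral_nonneg fun z => mul_nonneg (hf z) (wt_pos hpos z).le

end weights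

section forms

variable {ℓ δ : ℝ} {h : ℝ → ℝ}

lemma memLp_G1 (hh : ContDiff ℝ ∞ h) (hpos : ∀ s, 0 < h s) {V W : ℝ × ℝ → ℝ}
    (hV : MemLp V 2 (muT ℓ)) (hW : MemLp W 2 (muT ℓ)) : MemLp (G1 h V W) 2 (muT ℓ) := by
  have hc : Continuous fun z : ℝ × ℝ => deriv h z.1 / h z.1 * z.2 := by
    have h1 : Continuous (deriv h) := hh.continuous_deriv (by simp)
    have h2 : Continuous h := hh.continuous
    refine ((h1.comp continuous_fst).div (h2.comp continuous_fst) ?_).mul continuous_snd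
    intro z
    exact (hpos z.1).ne'
  exact hV.sub (memLp_mul_cont hW hc)

lemma memLp_G2 (hh : ContDiff ℝ ∞ h) (hpos : ∀ s, 0 < h s) (hδ : δ ≠ 0) {W : ℝ × ℝ → ℝ}
    (hW : MemLp W 2 (muT ℓ)) : MemLp (G2 h δ W) 2 (muT ℓ) := by
  have hc : Continuous fun z : ℝ × ℝ => 1 / (δ * h z.1) := by
    have h2 : Continuous h := hh.continuous
    refine continuous_const.div (continuous_const.mul (h2.comp continuous_fst)) ?_
    intro z
    exact mul_ne_zero hδ (hpos z.1).ne'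
  have := memLp_mul_cont hW hc
  refine this.congr_norm ?_ (Eventually.of_forall fun z => ?_)
  · have h3 : (G2 h δ W) = fun z => 1 / (δ * h z.1) * W z := by
      ext z; unfold G2; ring
    rw [h3]; exact this.aestronglyMeasurable
  · unfold G2
    congr 1
    ring

/-- integrand of `Bil` -/
lemma int_Bil (hh : ContDiff ℝ ∞ h) (hpos : ∀ s, 0 < h s) (hδ : δ ≠ 0)
    {V W V' W' : ℝ × ℝ → ℝ} (hV : MemLp V 2 (muT ℓ)) (hW : MemLp W 2 (muT ℓ))
    (hV' : MemLp V' 2 (muT ℓ)) (hW' : MemLp W' 2 (muT ℓ)) :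
    Integrable (fun z => (G1 h V W z * G1 h V' W' z + G2 h δ W z * G2 h δ W' z) * (h z.1 / 2))
      (muT ℓ) := by
  refine int_mul_cont ((int_mul (memLp_G1 hh hpos hV hW) (memLp_G1 hh hpos hV' hW')).add
    (int_mul (memLp_G2 hh hpos hδ hW) (memLp_G2 hh hpos hδ hW'))) ?_
  have := hh.continuous
  fun_prop

lemma Bil_symm (V W V' W' : ℝ × ℝ → ℝ) : Bil ℓ h δ V W V' W' = Bil ℓ h δ V' W' V W := by
  unfold Bil
  congr 1
  ext z
  ring

lemma Bil_smul (c : ℝ) (V W V' W' : ℝ × ℝ → ℝ) :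
    Bil ℓ h δ (fun z => c * V z) (fun z => c * W z) V' W' = c * Bil ℓ h δ V W V' W' := by
  unfold Bil
  rw [← integral_const_mul]
  congr 1
  ext z
  unfold G1 G2
  ring

lemma Bil_add (hh : ContDiff ℝ ∞ h) (hpos : ∀ s, 0 < h s) (hδ : δ ≠ 0)
    {V W V' W' V'' W'' : ℝ × ℝ → ℝ} (hV : MemLp V 2 (muT ℓ)) (hW : MemLp W 2 (muT ℓ))
    (hV' : MemLp V' 2 (muT ℓ)) (hW' : MemLp W' 2 (muT ℓ))
    (hV'' : MemLp V'' 2 (muT ℓ)) (hW'' : MemLp W'' 2 (muT ℓ)) :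
    Bil ℓ h δ (fun z => V z + V' z) (fun z => W z + W' z) V'' W''
      = Bil ℓ h δ V W V'' W'' + Bil ℓ h δ V' W' V'' W'' := by
  unfold Bil
  rw [← integral_add (int_Bil hh hpos hδ hV hW hV'' hW'')
    (int_Bil hh hpos hδ hV' hW' hV'' hW'')]
  congr 1
  ext z
  unfold G1 G2
  ring

/-- expansion of the square -/
lemma Bil_expand (hh : ContDiff ℝ ∞ h) (hpos : ∀ s, 0 < h s) (hδ : δ ≠ 0)
    {V W V' W' : ℝ × ℝ → ℝ} (hV : MemLp V 2 (muT ℓ)) (hW : MemLp W 2 (muT ℓ))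
    (hV' : MemLp V' 2 (muT ℓ)) (hW' : MemLp W' 2 (muT ℓ)) (t : ℝ) :
    Bil ℓ h δ (fun z => V z + t * V' z) (fun z => W z + t * W' z)
        (fun z => V z + t * V' z) (fun z => W z + t * W' z)
      = Bil ℓ h δ V W V W + 2 * t * Bil ℓ h δ V W V' W' + t ^ 2 * Bil ℓ h δ V' W' V' W' := by
  have h1 := int_Bil hh hpos hδ hV hW hV hW
  have h2 := int_Bil hh hpos hδ hV hW hV' hW'
  have h3 := int_Bil hh hpos hδ hV' hW' hV' hW'
  have h12 : Integrable (fun z => (G1 h V W z * G1 h V W z + G2 h δ W z * G2 h δ W z) * (h z.1 / 2)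
      + 2 * t * ((G1 h V W z * G1 h V' W' z + G2 h δ W z * G2 h δ W' z) * (h z.1 / 2))) (muT ℓ) :=
    h1.add (h2.const_mul _)
  unfold Bil
  rw [← integral_const_mul, ← integral_const_mul, ← integral_add h1 (h2.const_mul _),
    ← integral_add h12 (h3.const_mul _)]
  congr 1
  ext z
  unfold G1 G2
  ring

end forms

end Pool.Agent.Lib.MP_e46711_an.H29
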